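import Pool.Agent.Helper22_DEN4.Stmt
import Pool.Agent.Helper76_DEN.Cnt

/-!
# CN2: the count with the refined pointwise bound
-/

set_option autoImplicit false

open scoped BigOperators

namespace Pool.Agent.DEN.H504

section
variable {r : ℕ} {C : Matrix (Fin r) (Fin r) ℤ} {K : Type} [Field K]

/-- the exponents: the simple roots are among the roots. -/
theorem eb_add_le (hRF : RootFinStmt) (hC : SimplyLaced C) (l : Fin r → ℤ) (m : ℕ) :
    eb C l m + ∑ i, min (ip C (al i) l).toNat m ≤ dep C l := by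
  classical
  have hfin := hRF r C hC
  have : Fintype (Rt C) := Fintype.ofFinite _
  have hdep : dep C l = ∑ β : Rt C, (ip C β.1 l).toNat := by
    unfold dep
    exact finsum_eq_sum_of_fintype _
  have heb : eb C l m = ∑ β : Rt C, (ip C β.1 l - m).toNat := by
    unfold eb
    rw [finsum_eq_sum_of_fintype,
      ← Finset.sum_subtype (Finset.univ.filter (fun β : Rt C => 0 < ip C β.1 l)) (by simp)
        (fun β : Rt C => (ip C β.1 l - m).toNat)]
    apply Finset.sum_filter_of_ne
    intro β _ h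
    omega
  have hsplit : ∀ a : ℤ, a.toNat = (a - m).toNat + min a.toNat m := by
    intro a
    omega
  rw [hdep, heb]
  have h1 : ∑ β : Rt C, (ip C β.1 l).toNat =
      ∑ β : Rt C, (ip C β.1 l - m).toNat + ∑ β : Rt C, min (ip C β.1 l).toNat m := by
    rw [← Finset.sum_add_distrib]
    exact Finset.sum_congr rfl fun β _ => hsplit _
  rw [h1]
  apply Nat.add_le_add_left
  have hinj : Function.Injective hC.sr := by
    intro i j h
    have h2 := congrArg (fun β : Rt C => β.1 i) h
    simp only [SimplyLaced.sr_val, al, Pi.single_eq_same] at h2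
    by_contra hne
    rw [Pi.single_eq_of_ne hne] at h2
    exact one_ne_zero h2
  calc ∑ i, min (ip C (al i) l).toNat m
      = ∑ β ∈ Finset.univ.image hC.sr, min (ip C β.1 l).toNat m := by
        rw [Finset.sum_image (fun a _ b _ h => hinj h)]
        rfl
    _ ≤ ∑ β : Rt C, min (ip C β.1 l).toNat m :=
        Finset.sum_le_sum_of_subset (Finset.subset_univ _)

/-- the sum over one coordinate -/
theorem sum_one (q : ℝ) (hq : 2 ≤ q) (D m : ℕ) :
    ∑ a ∈ Finset.range D, (q ^ min a m)⁻¹ ≤ 2 + D / q ^ m := by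
  have hq0 : 0 < q := by linarith
  have h1 : ∀ a ∈ Finset.range D, (q ^ min a m)⁻¹ ≤ (1 / 2 : ℝ) ^ a + (q ^ m)⁻¹ := by
    intro a _
    rcases le_total a m with h | h
    · rw [min_eq_left h]
      have h2 : (q ^ a)⁻¹ ≤ (1 / 2 : ℝ) ^ a := by
        rw [one_div, inv_pow]
        exact inv_anti₀ (by positivity) (pow_le_pow_left₀ (by norm_num) hq a)
      have h3 : 0 ≤ (q ^ m)⁻¹ := by positivity
      linarith
    · rw [min_eq_right h]
      have h3 : (0 : ℝ) ≤ (1 / 2 : ℝ) ^ a := by positivity
      linarith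
  refine (Finset.sum_le_sum h1).trans ?_
  rw [Finset.sum_add_distrib]
  have h2 : ∑ a ∈ Finset.range D, (1 / 2 : ℝ) ^ a ≤ 2 := by
    have := (summable_geometric_two).sum_le_tsum (Finset.range D) (fun _ _ => by positivity)
    rw [tsum_geometric_two] at this
    exact this
  have h3 : ∑ _a ∈ Finset.range D, (q ^ m)⁻¹ = D / q ^ m := by
    rw [Finset.sum_const, Finset.card_range, nsmul_eq_mul, div_eq_mul_inv]
  rw [h3]
  linarith

/-- the sum over the dominant vectors -/
theorem sum_lset (hRoots : RootSignStmt) (hC : SimplyLaced C) (D m : ℕ) (q : ℝ) (hq : 2 ≤ q)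
    (L : Finset (Fin r → ℤ))
    (hL : ∀ l ∈ L, ∀ i, 0 ≤ ip C (al i) l ∧ ip C (al i) l < D) :
    ∑ l ∈ L, (q ^ ∑ i, min (ip C (al i) l).toNat m)⁻¹ ≤ (2 + D / q ^ m) ^ r := by
  classical
  have hq0 : 0 < q := by linarith
  have hinj := (hRoots r C hC).2.2.1
  set φ : (Fin r → ℤ) → (Fin r → ℕ) := fun l i => (ip C (al i) l).toNat with hφ
  have hφi : Set.InjOn φ L := by
    intro l hl l' hl' h
    refine hinj l l' fun i => ?_
    have h1 := congrFun h i
    have h2 := hL l hl i
    have h3 := hL l' hl' i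
    simp only [hφ] at h1
    omega
  calc ∑ l ∈ L, (q ^ ∑ i, min (ip C (al i) l).toNat m)⁻¹
      = ∑ l ∈ L, ∏ i, (q ^ min (φ l i) m)⁻¹ := by
        refine Finset.sum_congr rfl fun l _ => ?_
        rw [← Finset.prod_pow_eq_pow_sum, ← Finset.prod_inv_distrib]
    _ = ∑ a ∈ L.image φ, ∏ i, (q ^ min (a i) m)⁻¹ := by
        rw [Finset.sum_image hφi]
    _ ≤ ∑ a ∈ Fintype.piFinset (fun _ : Fin r => Finset.range D), ∏ i, (q ^ min (a i) m)⁻¹ := by
        refine Finset.sum_le_sum_of_subset_of_nonneg ?_ (fun _ _ _ => by positivity)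
        intro a ha
        obtain ⟨l, hl, rfl⟩ := Finset.mem_image.mp ha
        rw [Fintype.mem_piFinset]
        intro i
        rw [Finset.mem_range]
        have := hL l hl i
        simp only [hφ]
        omega
    _ = ∏ _i : Fin r, ∑ a ∈ Finset.range D, (q ^ min a m)⁻¹ := by
        rw [Finset.prod_univ_sum]
    _ = (∑ a ∈ Finset.range D, (q ^ min a m)⁻¹) ^ r := by
        rw [Finset.prod_const, Finset.card_univ, Fintype.card_fin]
    _ ≤ (2 + D / q ^ m) ^ r :=
        pow_le_pow_left₀ (Finset.sum_nonneg fun _ _ => by positivity) (sum_one q hq D m) r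

/-- CN2. -/
theorem cn2 (hBir : BirStmt) (hVan : VanStmt) (hStl : StlStmt) (hMas : MasStmt)
    (hFin : FinStmt) (hFsp : FspStmt) (hRoots : RootSignStmt) (hNrm : NrmStmt)
    (hRF : RootFinStmt) : Cn2Stmt := by
  classical
  intro r C hC K _ _ hr N hN n f hf hone w hw B hB m hbound
  have hq : (2 : ℝ) ≤ Nat.card K := by
    have : 1 < Nat.card K := Finite.one_lt_card
    exact_mod_cast this
  have hq0 : (0 : ℝ) < Nat.card K := by linarith
  by_cases hD : N.natDegree = 0
  · have := H22.n_zero hBir hVan hr hC N hN hD n f hf hone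
    subst this
    simp only [Finset.univ_eq_empty, Finset.sum_empty]
    positivity
  have hSfin : {o : MulAction.orbitRel.Quotient (cong C K 1 N) (XX C K) |
      ∃ j, f j o.out ≠ 0}.Finite := by
    have h : {o : MulAction.orbitRel.Quotient (cong C K 1 N) (XX C K) | ∃ j, f j o.out ≠ 0} =
        ⋃ j, {o | f j o.out ≠ 0} := by
      ext o; simp
    rw [h]
    exact Set.finite_iUnion fun j => hFsp r C hC K N hN (f j) (hf j)
  obtain ⟨S, hS⟩ : ∃ S : Finset (MulAction.orbitRel.Quotient (cong C K 1 N) (XX C K)),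
      ∀ o, o ∈ S ↔ ∃ j, f j o.out ≠ 0 := ⟨hSfin.toFinset, fun o => by simp⟩
  choose γ hγ l g hg hl hx using
    fun o : MulAction.orbitRel.Quotient (cong C K 1 N) (XX C K) => hBir r C hC K o.out
  have h1 : ∀ j, ∑ o ∈ S, ‖f j o.out‖ ^ 2 /
      (Nat.card (MulAction.stabilizer (cong C K 1 N) o.out) : ℝ) = 1 := by
    intro j
    have h2 := hone j
    unfold petersson at h2
    rw [finsum_eq_sum_of_support_subset (s := S)] at h2
    · have h3 : ((∑ o ∈ S, ‖f j o.out‖ ^ 2 /
          (Nat.card (MulAction.stabilizer (cong C K 1 N) o.out) : ℝ) : ℝ) : ℂ) = 1 := by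
        rw [← h2]
        push_cast
        refine Finset.sum_congr rfl fun o _ => ?_
        rw [← Complex.normSq_eq_conj_mul_self, Complex.normSq_eq_norm_sq]
        push_cast
        rfl
      exact_mod_cast h3
    · intro o ho
      rw [Finset.mem_coe, hS]
      refine ⟨j, fun h0 => ?_⟩
      apply ho
      simp [h0]
  have hidx : ∀ l' ∈ S.image l, ∑ o ∈ S with l o = l',
      (B * (Nat.card K : ℝ) ^ eb C (l o) m) /
        (Nat.card (MulAction.stabilizer (cong C K 1 N) o.out) : ℝ) ≤
      (cong C K 1 N).relIndex (arith C K 1) * B *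
        ((Nat.card K : ℝ) ^ ∑ i, min (ip C (al i) l').toNat m)⁻¹ := by
    intro l' hl'
    obtain ⟨o₀, ho₀, rfl⟩ := Finset.mem_image.mp hl'
    have hfinst := (hFin r C hC K).1 (pt (g o₀))
    have hout : ∀ o o' : MulAction.orbitRel.Quotient (cong C K 1 N) (XX C K),
        (∃ δ ∈ cong C K 1 N, δ • o.out = o'.out) → o = o' := by
      rintro o o' ⟨δ, hδ, h⟩
      have h2 : (MulAction.orbitRel (cong C K 1 N) (XX C K)) o'.out o.out := by
        rw [MulAction.orbitRel_apply]
        exact ⟨⟨δ, hδ⟩, h⟩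
      have h3 : (Quotient.mk _ o'.out : MulAction.orbitRel.Quotient (cong C K 1 N) (XX C K)) =
        Quotient.mk _ o.out := Quotient.sound h2
      rw [Quotient.out_eq, Quotient.out_eq] at h3
      exact h3.symm
    have hm := hMas (grp C K) (XX C K) (arith C K 1) (cong C K 1 N) (fun x hx => hx.1)
      (fun a ha b hb => (hNrm r C hC K 1 N one_ne_zero hN isCoprime_one_left).1 a ha b hb)
      ((hFin r C hC K).2.2 N hN) (pt (g o₀)) hfinst
      ((S.filter (fun o => l o = l o₀)).image Quotient.out)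
      (by
        intro y hy
        obtain ⟨o, ho, rfl⟩ := Finset.mem_image.mp hy
        rw [Finset.mem_filter] at ho
        refine ⟨γ o, hγ o, ?_⟩
        have e1 : g o = g o₀ := by
          have := hg o
          rw [ho.2] at this
          exact H76.tor_unique this (hg o₀)
        rw [← e1]
        exact hx o)
      (by
        intro y hy y' hy' h
        obtain ⟨o, ho, rfl⟩ := Finset.mem_image.mp hy
        obtain ⟨o', ho', rfl⟩ := Finset.mem_image.mp hy'
        rw [hout o o' h])
    rw [Finset.sum_image (fun a _ b _ h => Quotient.out_injective h)] at hm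
    have hstl := hStl r C hC K (l o₀) (g o₀) (hg o₀) (hl o₀)
    set μ := ∑ i, min (ip C (al i) (l o₀)).toNat m with hμ
    have hexp := eb_add_le hRF hC (l o₀) m
    rw [← hμ] at hexp
    have hB' : 0 ≤ B * ((Nat.card K : ℝ) ^ μ)⁻¹ := by positivity
    have hpow : (Nat.card K : ℝ) ^ eb C (l o₀) m ≤
        ((Nat.card K : ℝ) ^ μ)⁻¹ * (Nat.card K : ℝ) ^ dep C (l o₀) := by
      rw [inv_mul_eq_div, le_div_iff₀ (by positivity), ← pow_add]
      exact pow_le_pow_right₀ (by linarith) hexp
    calc ∑ o ∈ S with l o = l o₀, (B * (Nat.card K : ℝ) ^ eb C (l o) m) /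
        (Nat.card (MulAction.stabilizer (cong C K 1 N) o.out) : ℝ)
        ≤ ∑ o ∈ S with l o = l o₀, (B * ((Nat.card K : ℝ) ^ μ)⁻¹) *
          ((Nat.card (MulAction.stabilizer (arith C K 1) (pt (g o₀))) : ℝ) /
          (Nat.card (MulAction.stabilizer (cong C K 1 N) o.out) : ℝ)) := by
          refine Finset.sum_le_sum fun o ho => ?_
          rw [Finset.mem_filter] at ho
          rw [ho.2, ← mul_div_assoc]
          refine div_le_div_of_nonneg_right ?_ (Nat.cast_nonneg _)
          rw [mul_assoc]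
          refine mul_le_mul_of_nonneg_left (hpow.trans ?_) hB
          refine mul_le_mul_of_nonneg_left ?_ (by positivity)
          exact_mod_cast hstl
      _ = (B * ((Nat.card K : ℝ) ^ μ)⁻¹) * ∑ o ∈ S with l o = l o₀,
          ((Nat.card (MulAction.stabilizer (arith C K 1) (pt (g o₀))) : ℝ) /
          (Nat.card (MulAction.stabilizer (cong C K 1 N) o.out) : ℝ)) := by
          rw [Finset.mul_sum]
      _ ≤ (B * ((Nat.card K : ℝ) ^ μ)⁻¹) * (cong C K 1 N).relIndex (arith C K 1) :=
          mul_le_mul_of_nonneg_left hm hB'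
      _ = _ := by ring
  have hcard := sum_lset hRoots hC N.natDegree m (Nat.card K : ℝ) hq (S.image l) (by
      intro l' hl' i
      obtain ⟨o, ho, rfl⟩ := Finset.mem_image.mp hl'
      refine ⟨hl o i, ?_⟩
      obtain ⟨j, hj⟩ := (hS o).mp ho
      by_contra hlt
      apply hj
      rw [hx o]
      refine hVan r C hC K N hN (f j) (hf j) (γ o) (hγ o) (l o) (g o) (hg o) (hl o) i ?_
      omega)
  calc ∑ j, w j = ∑ j, w j * ∑ o ∈ S, ‖f j o.out‖ ^ 2 /
      (Nat.card (MulAction.stabilizer (cong C K 1 N) o.out) : ℝ) := by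
        refine Finset.sum_congr rfl fun j _ => ?_
        rw [h1 j, mul_one]
    _ = ∑ o ∈ S, (∑ j, w j * ‖f j o.out‖ ^ 2) /
      (Nat.card (MulAction.stabilizer (cong C K 1 N) o.out) : ℝ) := by
        simp only [Finset.mul_sum, Finset.sum_div]
        rw [Finset.sum_comm]
        refine Finset.sum_congr rfl fun o _ => Finset.sum_congr rfl fun j _ => ?_
        rw [mul_div_assoc]
    _ ≤ ∑ o ∈ S, (B * (Nat.card K : ℝ) ^ eb C (l o) m) /
      (Nat.card (MulAction.stabilizer (cong C K 1 N) o.out) : ℝ) := by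
        refine Finset.sum_le_sum fun o _ => ?_
        refine div_le_div_of_nonneg_right ?_ (Nat.cast_nonneg _)
        have := hbound (γ o) (hγ o) (l o) (g o) (hg o) (hl o)
        rwa [← hx o] at this
    _ = ∑ l' ∈ S.image l, ∑ o ∈ S with l o = l', (B * (Nat.card K : ℝ) ^ eb C (l o) m) /
      (Nat.card (MulAction.stabilizer (cong C K 1 N) o.out) : ℝ) :=
        (Finset.sum_fiberwise_of_maps_to
          (fun o ho => Finset.mem_image_of_mem l ho) _).symm
    _ ≤ ∑ l' ∈ S.image l, (cong C K 1 N).relIndex (arith C K 1) * B *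
          ((Nat.card K : ℝ) ^ ∑ i, min (ip C (al i) l').toNat m)⁻¹ :=
        Finset.sum_le_sum hidx
    _ = ((cong C K 1 N).relIndex (arith C K 1) * B) *
          ∑ l' ∈ S.image l, ((Nat.card K : ℝ) ^ ∑ i, min (ip C (al i) l').toNat m)⁻¹ := by
        rw [Finset.mul_sum]
    _ ≤ ((cong C K 1 N).relIndex (arith C K 1) * B) *
          (2 + N.natDegree / (Nat.card K : ℝ) ^ m) ^ r :=
        mul_le_mul_of_nonneg_left hcard (by positivity)
    _ = _ := by ring

end

end Pool.Agent.DEN.H504
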