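import Mathlib

/-!
# A nonnegative symmetric kernel on a set with a transitive family of automorphisms
-/

set_option autoImplicit false

open scoped BigOperators InnerProductSpace
open Filter Topology

namespace Pool.Agent.DEN.H504

variable {X : Type}

/-- A nonnegative symmetric kernel with finite sections, of norm at most `τ` on `ℓ²`. -/
structure KerOK (K : X → X → ℝ) (τ : ℝ) : Prop where
  nonneg : ∀ x y, 0 ≤ K x y
  symm : ∀ x y, K x y = K y x
  fin : ∀ x, {y | K x y ≠ 0}.Finite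
  norm : ∀ (S T : Finset X) (φ : X → ℝ),
    ∑ x ∈ S, (∑ y ∈ T, K x y * φ y) ^ 2 ≤ τ ^ 2 * ∑ y ∈ T, φ y ^ 2

variable {K : X → X → ℝ} {τ : ℝ}

/-- The operator with the kernel `K`. -/
noncomputable def ap (hK : KerOK K τ) (φ : X → ℝ) (x : X) : ℝ :=
  ∑ y ∈ (hK.fin x).toFinset, K x y * φ y

theorem ap_eq (hK : KerOK K τ) (φ : X → ℝ) (x : X) (T : Finset X)
    (hT : ∀ y, K x y ≠ 0 → φ y ≠ 0 → y ∈ T) : ap hK φ x = ∑ y ∈ T, K x y * φ y := by
  classical
  unfold ap
  have h1 : ∑ y ∈ (hK.fin x).toFinset, K x y * φ y =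
      ∑ y ∈ (hK.fin x).toFinset ∪ T, K x y * φ y := by
    refine Finset.sum_subset Finset.subset_union_left ?_
    intro y _ hy
    rw [Set.Finite.mem_toFinset] at hy
    have : K x y = 0 := by
      by_contra h
      exact hy h
    rw [this, zero_mul]
  rw [h1]
  symm
  refine Finset.sum_subset Finset.subset_union_right ?_
  intro y _ hy
  by_contra h
  exact hy (hT y (left_ne_zero_of_mul h) (right_ne_zero_of_mul h))

theorem ap_add (hK : KerOK K τ) (φ ψ : X → ℝ) (x : X) :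
    ap hK (fun y => φ y + ψ y) x = ap hK φ x + ap hK ψ x := by
  simp only [ap, mul_add, Finset.sum_add_distrib]

theorem ap_sub (hK : KerOK K τ) (φ ψ : X → ℝ) (x : X) :
    ap hK (fun y => φ y - ψ y) x = ap hK φ x - ap hK ψ x := by
  simp only [ap, mul_sub, Finset.sum_sub_distrib]

theorem ap_smul (hK : KerOK K τ) (c : ℝ) (φ : X → ℝ) (x : X) :
    ap hK (fun y => c * φ y) x = c * ap hK φ x := by
  simp only [ap, Finset.mul_sum]
  exact Finset.sum_congr rfl fun y _ => by ring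

theorem ap_mono (hK : KerOK K τ) {φ ψ : X → ℝ} (h : ∀ y, φ y ≤ ψ y) (x : X) :
    ap hK φ x ≤ ap hK ψ x :=
  Finset.sum_le_sum fun y _ => mul_le_mul_of_nonneg_left (h y) (hK.nonneg x y)

theorem abs_ap_le (hK : KerOK K τ) (φ : X → ℝ) (x : X) :
    |ap hK φ x| ≤ ap hK (fun y => |φ y|) x := by
  refine (Finset.abs_sum_le_sum_abs _ _).trans (Finset.sum_le_sum fun y _ => ?_)
  rw [abs_mul, abs_of_nonneg (hK.nonneg x y)]

theorem ap_nonneg (hK : KerOK K τ) {φ : X → ℝ} (h : ∀ y, 0 ≤ φ y) (x : X) :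
    0 ≤ ap hK φ x :=
  Finset.sum_nonneg fun y _ => mul_nonneg (hK.nonneg x y) (h y)

theorem le_ap (hK : KerOK K τ) {φ : X → ℝ} (h : ∀ y, 0 ≤ φ y) (x y : X) :
    K x y * φ y ≤ ap hK φ x := by
  by_cases hy : K x y = 0
  · rw [hy, zero_mul]; exact ap_nonneg hK h x
  · exact Finset.single_le_sum (f := fun y => K x y * φ y)
      (fun z _ => mul_nonneg (hK.nonneg x z) (h z)) (by rw [Set.Finite.mem_toFinset]; exact hy)

/-- finite partial sums of the square of `ap φ` -/
theorem ap_sq_sum (hK : KerOK K τ) (φ : X → ℝ) (hφ : Summable fun y => φ y ^ 2) (S : Finset X) :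
    ∑ x ∈ S, ap hK φ x ^ 2 ≤ τ ^ 2 * ∑' y, φ y ^ 2 := by
  classical
  set T : Finset X := S.biUnion fun x => (hK.fin x).toFinset with hT
  have h1 : ∑ x ∈ S, ap hK φ x ^ 2 = ∑ x ∈ S, (∑ y ∈ T, K x y * φ y) ^ 2 := by
    refine Finset.sum_congr rfl fun x hx => ?_
    rw [ap_eq hK φ x T (fun y hy _ => by
      rw [hT, Finset.mem_biUnion]
      exact ⟨x, hx, by rw [Set.Finite.mem_toFinset]; exact hy⟩)]
  rw [h1]
  refine (hK.norm S T φ).trans (mul_le_mul_of_nonneg_left ?_ (sq_nonneg _))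
  exact hφ.sum_le_tsum T fun y _ => sq_nonneg _

theorem ap_summable (hK : KerOK K τ) (φ : X → ℝ) (hφ : Summable fun y => φ y ^ 2) :
    Summable fun x => ap hK φ x ^ 2 :=
  summable_of_sum_le (fun _ => sq_nonneg _) (ap_sq_sum hK φ hφ)

theorem ap_tsum_le (hK : KerOK K τ) (φ : X → ℝ) (hφ : Summable fun y => φ y ^ 2) :
    ∑' x, ap hK φ x ^ 2 ≤ τ ^ 2 * ∑' y, φ y ^ 2 :=
  (ap_summable hK φ hφ).tsum_le_of_sum_le (ap_sq_sum hK φ hφ)

/-- the space of the `ℓ²` eigenfunctions of the square with eigenvalue `τ²` -/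
def EF (hK : KerOK K τ) (u : X → ℝ) : Prop :=
  (Summable fun y => u y ^ 2) ∧ ∀ x, ap hK (ap hK u) x = τ ^ 2 * u x

theorem EF.abs {hK : KerOK K τ} {u : X → ℝ} (h : EF hK u) : EF hK (fun x => |u x|) := by
  have hs : Summable fun y => |u y| ^ 2 := by simpa only [sq_abs] using h.1
  refine ⟨hs, ?_⟩
  set v : X → ℝ := fun x => |u x| with hv
  have h1 : ∀ x, τ ^ 2 * v x ≤ ap hK (ap hK v) x := by
    intro x
    have e1 : τ ^ 2 * v x = |ap hK (ap hK u) x| := by
      rw [h.2 x, abs_mul, abs_of_nonneg (sq_nonneg τ)]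
    rw [e1]
    refine (abs_ap_le hK _ x).trans (ap_mono hK (fun y => abs_ap_le hK u y) x)
  have h2 : ∑' x, ap hK (ap hK v) x ^ 2 ≤ τ ^ 2 * (τ ^ 2 * ∑' x, v x ^ 2) := by
    refine (ap_tsum_le hK _ (ap_summable hK v hs)).trans ?_
    exact mul_le_mul_of_nonneg_left (ap_tsum_le hK v hs) (sq_nonneg _)
  have h3 : ∑' x, (τ ^ 2 * v x) ^ 2 = τ ^ 2 * (τ ^ 2 * ∑' x, v x ^ 2) := by
    rw [← mul_assoc, ← tsum_mul_left]
    exact tsum_congr fun x => by ring
  have hs1 : Summable fun x => (τ ^ 2 * v x) ^ 2 := by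
    have := hs.mul_left ((τ ^ 2) ^ 2)
    refine this.congr fun x => ?_
    ring
  have hs2 := ap_summable hK _ (ap_summable hK v hs)
  have h4 : ∀ x, (τ ^ 2 * v x) ^ 2 ≤ ap hK (ap hK v) x ^ 2 := fun x =>
    pow_le_pow_left₀ (mul_nonneg (sq_nonneg _) (abs_nonneg _)) (h1 x) 2
  intro x
  by_contra hne
  have hlt : τ ^ 2 * v x < ap hK (ap hK v) x := lt_of_le_of_ne (h1 x) (Ne.symm hne)
  have h5 : (τ ^ 2 * v x) ^ 2 < ap hK (ap hK v) x ^ 2 :=
    pow_lt_pow_left₀ hlt (mul_nonneg (sq_nonneg _) (abs_nonneg _)) two_ne_zero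
  have h6 := hs1.tsum_lt_tsum h4 h5 hs2
  rw [h3] at h6
  exact absurd h2 (not_le.2 h6)

theorem EF.add {hK : KerOK K τ} {u v : X → ℝ} (hu : EF hK u) (hv : EF hK v) :
    EF hK (fun x => u x + v x) := by
  refine ⟨?_, fun x => ?_⟩
  · have h1 := (hu.1.add hv.1).mul_left 2
    refine Summable.of_nonneg_of_le (fun x => sq_nonneg _) (fun x => ?_) h1
    nlinarith [sq_nonneg (u x - v x)]
  · have e1 : ap hK (fun x => u x + v x) = fun x => ap hK u x + ap hK v x :=
      funext fun x => ap_add hK u v x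
    rw [e1, ap_add, hu.2 x, hv.2 x]
    ring

theorem EF.neg {hK : KerOK K τ} {u : X → ℝ} (hu : EF hK u) : EF hK (fun x => - u x) := by
  refine ⟨by simpa using hu.1, fun x => ?_⟩
  have e0 : ∀ w : X → ℝ, ap hK (fun x => - w x) = fun x => - ap hK w x := by
    intro w
    funext y
    simp only [ap, mul_neg, Finset.sum_neg_distrib]
  rw [e0, e0]
  simp only [hu.2 x, mul_neg]

/-- the sign rule -/
theorem EF.sign {hK : KerOK K τ} (hτ : 0 < τ) {u : X → ℝ} (hu : EF hK u) {x y z : X}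
    (h1 : 0 < K y z) (h2 : 0 < K z x) (hx : 0 < u x) : 0 < u y := by
  have hp := hu.abs.add hu
  have hp0 : ∀ w, 0 ≤ |u w| + u w := fun w => by linarith [neg_abs_le (u w)]
  by_contra hy
  have hy0 : |u y| + u y = 0 := by
    rw [abs_of_nonpos (not_lt.1 hy)]; ring
  have h3 : ap hK (ap hK fun w => |u w| + u w) y = τ ^ 2 * (|u y| + u y) := hp.2 y
  rw [hy0, mul_zero] at h3
  have h4 : K y z * ap hK (fun w => |u w| + u w) z ≤ 0 := by
    rw [← h3]
    exact le_ap hK (ap_nonneg hK hp0) y z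
  have h5 : K z x * (|u x| + u x) ≤ ap hK (fun w => |u w| + u w) z := le_ap hK hp0 z x
  have h6 : 0 < |u x| + u x := by rw [abs_of_pos hx]; linarith
  have h7 : 0 < K z x * (|u x| + u x) := mul_pos h2 h6
  nlinarith [mul_pos h1 (lt_of_lt_of_le h7 h5)]

/-- composition with an automorphism -/
theorem ap_comp (hK : KerOK K τ) (e : X ≃ X) (he : ∀ x y, K (e x) (e y) = K x y) (φ : X → ℝ)
    (x : X) : ap hK (fun y => φ (e y)) x = ap hK φ (e x) := by
  classical
  unfold ap
  refine Finset.sum_equiv e ?_ ?_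
  · intro y
    rw [Set.Finite.mem_toFinset, Set.Finite.mem_toFinset]
    show K x y ≠ 0 ↔ K (e x) (e y) ≠ 0
    rw [he]
  · intro y _
    rw [he]

theorem EF.comp {hK : KerOK K τ} {u : X → ℝ} (hu : EF hK u) (e : X ≃ X)
    (he : ∀ x y, K (e x) (e y) = K x y) : EF hK (fun x => u (e x)) := by
  refine ⟨(e.summable_iff (f := fun y => u y ^ 2)).2 hu.1, fun x => ?_⟩
  have e1 : ap hK (fun y => u (e y)) = fun y => ap hK u (e y) :=
    funext fun y => ap_comp hK e he u y
  rw [e1, ap_comp hK e he, hu.2]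

/-- an `ℓ²` function attains its maximum if it is positive somewhere -/
theorem exists_max {v : X → ℝ} (hv : Summable fun y => v y ^ 2) {o : X}
    (ho : 0 < v o) : ∃ x, 0 < v x ∧ ∀ y, v y ≤ v x := by
  classical
  have hfin : {y | v o ≤ v y}.Finite := by
    have h1 := hv.tendsto_cofinite_zero
    have h2 : ∀ᶠ y in cofinite, v y ^ 2 < v o ^ 2 := h1.eventually_lt_const (by positivity)
    rw [Filter.eventually_cofinite] at h2
    refine h2.subset ?_
    intro y hy
    show ¬ (v y ^ 2 < v o ^ 2)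
    rw [not_lt]
    exact pow_le_pow_left₀ ho.le hy 2
  obtain ⟨x, hx, hmax⟩ := Set.exists_max_image {y | v o ≤ v y} v hfin ⟨o, le_refl (v o)⟩
  refine ⟨x, lt_of_lt_of_le ho hx, fun y => ?_⟩
  by_cases hy : v o ≤ v y
  · exact hmax y hy
  · exact (not_le.1 hy).le.trans hx

/-- There is no eigenfunction, if there are an automorphism `e` which moves a point `o` to infinity
with `K₂ (x, e x) > 0` on the orbit, and enough automorphisms. -/
theorem EF.eq_zero {hK : KerOK K τ} (hτ : 0 < τ) {u : X → ℝ} (hu : EF hK u) (o : X)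
    (htr : ∀ x : X, ∃ a : X ≃ X, (∀ x y, K (a x) (a y) = K x y) ∧ a o = x)
    (e : X ≃ X) (he : ∀ x y, K (e x) (e y) = K x y)
    (hinj : Function.Injective fun n : ℕ => (e ^ n) o)
    (z : X) (h1 : 0 < K o z) (h2 : 0 < K z (e o)) (x : X) : u x = 0 := by
  classical
  by_contra hx
  obtain ⟨x₀, hx₀, hmax⟩ := exists_max (v := fun x => |u x|) hu.abs.1 (o := x) (abs_pos.2 hx)
  obtain ⟨a, ha, hao⟩ := htr x₀
  have hv : EF hK (fun x => |u (a x)|) := hu.abs.comp a ha
  set v : X → ℝ := fun x => |u (a x)| with hvdef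
  have hvo : 0 < v o := by
    show 0 < |u (a o)|
    rw [hao]; exact hx₀
  have hvmax : ∀ y, v y ≤ v o := by
    intro y
    show |u (a y)| ≤ |u (a o)|
    rw [hao]
    exact hmax (a y)
  have hep : ∀ (n : ℕ) x y, K ((e ^ n) x) ((e ^ n) y) = K x y := by
    intro n
    induction n with
    | zero => intro x y; simp
    | succ n ih =>
      intro x y
      rw [pow_succ, Equiv.Perm.mul_apply, Equiv.Perm.mul_apply, ih, he]
  have hw : EF hK (fun x => v (e x)) := hv.comp e he
  have hu2 : EF hK (fun x => v x + - v (e x)) := hv.add hw.neg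
  have hstep : ∀ n : ℕ, v ((e ^ n) o) = v o ∧ v ((e ^ (n + 1)) o) = v o := by
    intro n
    induction n with
    | zero =>
      refine ⟨by simp, ?_⟩
      -- go one step back
      have hb : v (e.symm o) + - v (e (e.symm o)) ≤ 0 := by
        rw [Equiv.apply_symm_apply]
        linarith [hvmax (e.symm o)]
      by_contra hne
      have hlt : v (e o) < v o := lt_of_le_of_ne (hvmax _) (by simpa using hne)
      have hpos : 0 < v o + - v (e o) := by linarith
      have k1 : 0 < K (e.symm o) (e.symm z) := by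
        rw [← he]; simpa using h1
      have k2 : 0 < K (e.symm z) o := by
        rw [← he]; simpa using h2
      have := hu2.sign hτ k1 k2 hpos
      exact absurd this (not_lt.2 hb)
    | succ n ih =>
      refine ⟨ih.2, ?_⟩
      have hpn : ∀ y, e ((e ^ n) y) = (e ^ (n + 1)) y := fun y => by
        rw [pow_succ', Equiv.Perm.mul_apply]
      have hb : v ((e ^ n) o) + - v (e ((e ^ n) o)) ≤ 0 := by
        rw [hpn, ih.1, ih.2]; linarith
      by_contra hne
      have hlt : v ((e ^ (n + 1 + 1)) o) < v o := lt_of_le_of_ne (hvmax _) hne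
      have hpn' : e ((e ^ (n + 1)) o) = (e ^ (n + 1 + 1)) o := by
        rw [pow_succ' e (n + 1), Equiv.Perm.mul_apply]
      have hpos : 0 < v ((e ^ (n + 1)) o) + - v (e ((e ^ (n + 1)) o)) := by
        rw [hpn', ih.2]; linarith
      have k1 : 0 < K ((e ^ n) o) ((e ^ n) z) := by rw [hep]; exact h1
      have k2 : 0 < K ((e ^ n) z) ((e ^ (n + 1)) o) := by
        rw [pow_succ, Equiv.Perm.mul_apply, hep]; exact h2
      have := hu2.sign hτ k1 k2 hpos
      exact absurd this (not_lt.2 hb)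
  have hfin : {y | v o ≤ v y}.Finite := by
    have h1 := hv.1.tendsto_cofinite_zero
    have h2 : ∀ᶠ y in cofinite, v y ^ 2 < v o ^ 2 := h1.eventually_lt_const (by positivity)
    rw [Filter.eventually_cofinite] at h2
    refine h2.subset ?_
    intro y hy
    show ¬ (v y ^ 2 < v o ^ 2)
    rw [not_lt]
    exact pow_le_pow_left₀ hvo.le hy 2
  refine Set.infinite_range_of_injective hinj (hfin.subset ?_)
  rintro _ ⟨n, rfl⟩
  exact (hstep n).1.ge

end Pool.Agent.DEN.H504
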