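import Pool.Agent.Helper22_DEN4.Stmt
import Pool.Agent.Helper26_DEN.Ker
import Pool.Agent.Helper50_DEN4.Kop

/-!
# KPO
-/

set_option autoImplicit false

open scoped BigOperators InnerProductSpace
open Filter Topology

namespace Pool.Agent.DEN.H504

section op

variable {X : Type} {K : X → X → ℝ} {τ : ℝ}

/-- the Hilbert space -/
abbrev L2 (X : Type) : Type := _root_.lp (fun _ : X => ℝ) 2

theorem l2_summable (f : L2 X) : Summable fun x => f x ^ 2 := by
  have := _root_.lp.summable_inner (𝕜 := ℝ) f f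
  refine this.congr fun x => ?_
  rw [real_inner_self_eq_norm_sq, Real.norm_eq_abs, sq_abs]

theorem l2_norm_sq (f : L2 X) : ‖f‖ ^ 2 = ∑' x, f x ^ 2 := by
  rw [← real_inner_self_eq_norm_sq, _root_.lp.inner_eq_tsum]
  refine tsum_congr fun x => ?_
  rw [real_inner_self_eq_norm_sq, Real.norm_eq_abs, sq_abs]

theorem memlp {φ : X → ℝ} (h : Summable fun x => φ x ^ 2) : Memℓp φ 2 := by
  apply memℓp_gen
  refine h.congr fun x => ?_
  simp

/-- the operator on `ℓ²` -/
noncomputable def opT (hK : KerOK K τ) (hτ : 0 < τ) : L2 X →L[ℝ] L2 X :=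
  LinearMap.mkContinuous
    { toFun := fun f => ⟨ap hK f, memlp (ap_summable hK f (l2_summable f))⟩
      map_add' := by
        intro f g
        apply _root_.lp.ext
        funext x
        exact ap_add hK f g x
      map_smul' := by
        intro c f
        apply _root_.lp.ext
        funext x
        exact ap_smul hK c f x } τ (by
      intro f
      apply le_of_sq_le_sq _ (mul_nonneg hτ.le (norm_nonneg _))
      rw [mul_pow, l2_norm_sq, l2_norm_sq]
      exact ap_tsum_le hK f (l2_summable f))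

theorem opT_apply (hK : KerOK K τ) (hτ : 0 < τ) (f : L2 X) (x : X) :
    opT hK hτ f x = ap hK f x := rfl

theorem opT_norm (hK : KerOK K τ) (hτ : 0 < τ) : ‖opT hK hτ‖ ≤ τ :=
  LinearMap.mkContinuous_norm_le _ hτ.le _

theorem opT_symm (hK : KerOK K τ) (hτ : 0 < τ) (f g : L2 X) :
    ⟪opT hK hτ f, g⟫_ℝ = ⟪f, opT hK hτ g⟫_ℝ := by
  classical
  have h : ContinuousLinearMap.adjoint (opT hK hτ) = opT hK hτ := by
    ext1 f
    apply _root_.lp.ext
    funext x
    have h1 : (ContinuousLinearMap.adjoint (opT hK hτ) f) x =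
        ⟪_root_.lp.single 2 x (1 : ℝ), ContinuousLinearMap.adjoint (opT hK hτ) f⟫_ℝ := by
      rw [_root_.lp.inner_single_left]
      simp
    rw [h1, ContinuousLinearMap.adjoint_inner_right, _root_.lp.inner_eq_tsum, opT_apply]
    have h2 : ∀ y, (opT hK hτ (_root_.lp.single 2 x (1 : ℝ))) y = K x y := by
      intro y
      rw [opT_apply, ap_eq hK _ _ {x}]
      · rw [Finset.sum_singleton, hK.symm]
        simp
      · intro z _ hz
        rw [Finset.mem_singleton]
        by_contra hne
        apply hz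
        simp [hne]
    rw [tsum_eq_sum (s := (hK.fin x).toFinset)]
    · unfold ap
      refine Finset.sum_congr rfl fun y _ => ?_
      rw [h2]
      simp [mul_comm]
    · intro y hy
      rw [h2]
      rw [Set.Finite.mem_toFinset] at hy
      have : K x y = 0 := by
        by_contra h; exact hy h
      simp [this]
  rw [← ContinuousLinearMap.adjoint_inner_right, h]

/-- The averages of the squares of the norms of the iterates tend to zero. -/
theorem exists_small (hK : KerOK K τ) (hτ : 0 < τ) (h0 : ∀ u : X → ℝ, EF hK u → ∀ x, u x = 0)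
    (f : L2 X) (ε : ℝ) (hε : 0 < ε) :
    ∃ m : ℕ, ‖((opT hK hτ)^[m]) f‖ ^ 2 ≤ ε * τ ^ (2 * m) := by
  classical
  set T := opT hK hτ with hT
  set A : L2 X →L[ℝ] L2 X := (τ⁻¹ ^ 2) • (T.comp T) with hA
  have hAn : ‖A‖ ≤ 1 := by
    rw [hA, norm_smul]
    have h1 : ‖T.comp T‖ ≤ τ * τ :=
      (ContinuousLinearMap.opNorm_comp_le _ _).trans
        (mul_le_mul (opT_norm hK hτ) (opT_norm hK hτ) (norm_nonneg _) hτ.le)
    rw [Real.norm_of_nonneg (by positivity)]
    calc τ⁻¹ ^ 2 * ‖T.comp T‖ ≤ τ⁻¹ ^ 2 * (τ * τ) := mul_le_mul_of_nonneg_left h1 (by positivity)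
      _ = 1 := by field_simp
  have hAa : ∀ g : L2 X, A g = (τ⁻¹ ^ 2) • T (T g) := fun g => rfl
  -- the fixed vectors
  have hfix : ∀ g : L2 X, A g = g → g = 0 := by
    intro g hg
    apply _root_.lp.ext
    funext x
    refine h0 g ⟨l2_summable g, fun y => ?_⟩ x
    have h1 : (τ⁻¹ ^ 2) * ap hK (ap hK g) y = g y := by
      conv_rhs => rw [← hg]
      rfl
    rw [← h1]
    field_simp
  have hlim := ContinuousLinearMap.tendsto_birkhoffAverage_orthogonalProjection (𝕜 := ℝ) A hAn f
  have hproj : (((A.eqLocus (1 : L2 X →L[ℝ] L2 X)).orthogonalProjectionOnto f :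
      A.eqLocus (1 : L2 X →L[ℝ] L2 X)) : L2 X) = 0 := by
    apply hfix
    exact ((A.eqLocus (1 : L2 X →L[ℝ] L2 X)).orthogonalProjectionOnto f).2
  rw [hproj] at hlim
  -- the iterates of `A`
  have hit : ∀ m : ℕ, ∀ g : L2 X, (A^[m]) g = (τ⁻¹ ^ 2) ^ m • (T^[2 * m]) g := by
    intro m
    induction m with
    | zero => intro g; simp
    | succ m ih =>
      intro g
      rw [Function.iterate_succ_apply', ih, hAa, map_smul, map_smul, smul_smul, ← pow_succ',
        show 2 * (m + 1) = 2 + 2 * m by ring, Function.iterate_add_apply T 2 (2 * m)]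
      rfl
  have hinner : ∀ m : ℕ, ⟪(A^[m]) f, f⟫_ℝ = (τ⁻¹ ^ 2) ^ m * ‖(T^[m]) f‖ ^ 2 := by
    intro m
    rw [hit, real_inner_smul_left]
    congr 1
    have h1 : ∀ (n : ℕ) (g h : L2 X), ⟪(T^[n]) g, h⟫_ℝ = ⟪g, (T^[n]) h⟫_ℝ := by
      intro n
      induction n with
      | zero => intro g h; rfl
      | succ n ih =>
        intro g h
        rw [Function.iterate_succ_apply, ih, opT_symm hK hτ, ← hT,
          ← Function.iterate_succ_apply' T n h]
    rw [two_mul, Function.iterate_add_apply, h1, real_inner_self_eq_norm_sq]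
  by_contra hcon
  push Not at hcon
  have hbig : ∀ m : ℕ, ε ≤ ⟪(A^[m]) f, f⟫_ℝ := by
    intro m
    rw [hinner]
    have h1 := (hcon m).le
    have h2 : (τ⁻¹ ^ 2) ^ m * (ε * τ ^ (2 * m)) = ε := by
      rw [pow_mul]
      have : τ ^ 2 ≠ 0 := by positivity
      rw [inv_pow, inv_pow]
      field_simp
    rw [← h2]
    exact mul_le_mul_of_nonneg_left h1 (by positivity)
  have hlim2 : Tendsto (fun N : ℕ => ⟪birkhoffAverage ℝ A _root_.id N f, f⟫_ℝ) atTop (𝓝 0) := by
    have h1 : Tendsto (fun N : ℕ => ⟪birkhoffAverage ℝ A _root_.id N f, f⟫_ℝ) atTop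
        (𝓝 ⟪(0 : L2 X), f⟫_ℝ) := hlim.inner tendsto_const_nhds
    rwa [inner_zero_left] at h1
  have hge : ∀ N : ℕ, 1 ≤ N → ε ≤ ⟪birkhoffAverage ℝ A _root_.id N f, f⟫_ℝ := by
    intro N hN
    have hN0 : (0 : ℝ) < N := by exact_mod_cast hN
    rw [birkhoffAverage, birkhoffSum, real_inner_smul_left, sum_inner]
    have h1 : (N : ℝ) * ε ≤ ∑ i ∈ Finset.range N, ⟪(_root_.id ((A^[i]) f) : L2 X), f⟫_ℝ := by
      have := Finset.card_nsmul_le_sum (Finset.range N)
        (fun i => ⟪(_root_.id ((A^[i]) f) : L2 X), f⟫_ℝ) ε (fun i _ => hbig i)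
      simpa [nsmul_eq_mul] using this
    calc ε = (N : ℝ)⁻¹ * ((N : ℝ) * ε) := by field_simp
      _ ≤ _ := mul_le_mul_of_nonneg_left h1 (by positivity)
  have := ge_of_tendsto hlim2 (Filter.eventually_atTop.2 ⟨1, hge⟩)
  linarith

end op

section fin

variable {X : Type} {K : X → X → ℝ} {τ : ℝ}

open Classical in
/-- the finitely supported functions `T ^ m δ` -/
noncomputable def cc (hK : KerOK K τ) (o : X) : ℕ → X → ℝ
  | 0 => fun y => if y = o then 1 else 0
  | m + 1 => ap hK (cc hK o m)

theorem cc_fin (hK : KerOK K τ) (o : X) (m : ℕ) : (Function.support (cc hK o m)).Finite := by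
  classical
  induction m with
  | zero =>
    refine (Set.finite_singleton o).subset fun y hy => ?_
    by_contra h
    exact hy (if_neg h)
  | succ m ih =>
    refine (Set.Finite.biUnion ih fun x _ => hK.fin x).subset ?_
    intro y hy
    have hy' : ap hK (cc hK o m) y ≠ 0 := hy
    obtain ⟨x, _, hx⟩ := Finset.exists_ne_zero_of_sum_ne_zero hy'
    rw [Set.mem_iUnion₂]
    refine ⟨x, right_ne_zero_of_mul hx, ?_⟩
    show K x y ≠ 0
    rw [hK.symm]
    exact left_ne_zero_of_mul hx

theorem cc_opT (hK : KerOK K τ) (hτ : 0 < τ) (o : X) :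
    ∃ f : L2 X, ∀ n : ℕ, ∀ y, ((opT hK hτ)^[n] f) y = cc hK o n y := by
  classical
  refine ⟨_root_.lp.single 2 o (1 : ℝ), fun n => ?_⟩
  induction n with
  | zero =>
    intro y
    simp only [Function.iterate_zero, id_eq, cc]
    by_cases h : y = o
    · subst h; simp
    · simp [h]
  | succ n ih =>
    intro y
    rw [Function.iterate_succ_apply', opT_apply]
    show ap hK _ y = ap hK (cc hK o n) y
    congr 1
    exact funext ih

end fin

theorem kpo : KpoStmt := by
  classical
  intro H _ L k τ hτ hinv hfin hnn hsym hinf hnorm ε hε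
  have hinvC : ∀ l ∈ L, ∀ g, (fun g => (k g : ℂ)) (l * g) = (fun g => (k g : ℂ)) g ∧
      (fun g => (k g : ℂ)) (g * l) = (fun g => (k g : ℂ)) g := fun l hl g => by
    constructor
    · show ((k (l * g) : ℝ) : ℂ) = (k g : ℂ)
      rw [(hinv l hl g).1]
    · show ((k (g * l) : ℝ) : ℂ) = (k g : ℂ)
      rw [(hinv l hl g).2]
  have hout : ∀ g h : H, k (g * (QuotientGroup.mk h : H ⧸ L).out) = k (g * h) := by
    intro g h
    have := H26.ker_out L (fun g => (k g : ℂ)) hinvC g h
    exact_mod_cast this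
  have hout' : ∀ g h : H, k ((QuotientGroup.mk h : H ⧸ L).out⁻¹ * g) = k (h⁻¹ * g) := by
    intro g h
    rw [← hsym, mul_inv_rev, inv_inv, hout, ← hsym, mul_inv_rev, inv_inv]
  set K : H ⧸ L → H ⧸ L → ℝ := fun x y => k (x.out⁻¹ * y.out) with hKdef
  have hKmk : ∀ g h : H, K (QuotientGroup.mk g) (QuotientGroup.mk h) = k (g⁻¹ * h) := by
    intro g h
    show k ((QuotientGroup.mk g : H ⧸ L).out⁻¹ * (QuotientGroup.mk h : H ⧸ L).out) = _
    rw [hout', hout]
  have hKinv : ∀ (g : H) (x y : H ⧸ L), K (g • x) (g • y) = K x y := by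
    intro g x y
    obtain ⟨a, rfl⟩ := QuotientGroup.mk_surjective x
    obtain ⟨b, rfl⟩ := QuotientGroup.mk_surjective y
    have e1 : g • (QuotientGroup.mk a : H ⧸ L) = QuotientGroup.mk (g * a) := rfl
    have e2 : g • (QuotientGroup.mk b : H ⧸ L) = QuotientGroup.mk (g * b) := rfl
    rw [e1, e2, hKmk, hKmk]
    congr 1
    group
  have hK : KerOK K τ := by
    refine ⟨fun x y => hnn _, fun x y => ?_, fun x => ?_, fun S T φ => ?_⟩
    · show k _ = k _
      rw [← hsym, mul_inv_rev, inv_inv]
    · have hinj : Set.InjOn (fun y : H ⧸ L => x.out⁻¹ • y)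
          ((fun y : H ⧸ L => x.out⁻¹ • y) ⁻¹' {y : H ⧸ L | k y.out ≠ 0}) :=
        fun a _ b _ h => smul_left_cancel _ h
      refine (hfin.preimage hinj).subset ?_
      intro y hy
      have h1 : x.out⁻¹ • y = (QuotientGroup.mk (x.out⁻¹ * y.out) : H ⧸ L) := by
        conv_lhs => rw [← QuotientGroup.out_eq' y]
        rfl
      have h2 := hout 1 (x.out⁻¹ * y.out)
      simp only [one_mul] at h2
      show k (x.out⁻¹ • y : H ⧸ L).out ≠ 0
      rw [h1, h2]
      exact hy
    · have h1 := hnorm S T (fun y => (φ y : ℂ))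
      have e1 : ∀ x : H ⧸ L, ‖∑ y ∈ T, ((k (x.out⁻¹ * y.out) : ℝ) : ℂ) * (φ y : ℂ)‖ ^ 2 =
          (∑ y ∈ T, K x y * φ y) ^ 2 := by
        intro x
        have : ∑ y ∈ T, ((k (x.out⁻¹ * y.out) : ℝ) : ℂ) * (φ y : ℂ) =
            ((∑ y ∈ T, K x y * φ y : ℝ) : ℂ) := by
          push_cast
          rfl
        rw [this, Complex.norm_real, Real.norm_eq_abs, sq_abs]
      have e2 : ∀ y, ‖((φ y : ℝ) : ℂ)‖ ^ 2 = φ y ^ 2 := by
        intro y
        rw [Complex.norm_real, Real.norm_eq_abs, sq_abs]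
      simp only [e1, e2] at h1
      exact h1
  -- no eigenfunctions
  obtain ⟨g, hg, hgn⟩ := hinf
  have hgpos : 0 < k g := lt_of_le_of_ne (hnn g) (Ne.symm hg)
  set o : H ⧸ L := QuotientGroup.mk 1 with ho
  have h0 : ∀ u : H ⧸ L → ℝ, EF hK u → ∀ x, u x = 0 := by
    intro u hu x
    refine hu.eq_zero hτ o (fun x => ?_) (MulAction.toPerm (g * g)) (fun x y => hKinv _ x y) ?_
      (QuotientGroup.mk g) ?_ ?_ x
    · obtain ⟨a, rfl⟩ := QuotientGroup.mk_surjective x
      refine ⟨MulAction.toPerm a, fun x y => hKinv a x y, ?_⟩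
      show a • (QuotientGroup.mk 1 : H ⧸ L) = _
      show (QuotientGroup.mk (a * 1) : H ⧸ L) = _
      rw [mul_one]
    · have e1 : ∀ n : ℕ, ((MulAction.toPerm (g * g) : Equiv.Perm (H ⧸ L)) ^ n) o =
          QuotientGroup.mk ((g * g) ^ n) := by
        intro n
        induction n with
        | zero =>
          rw [pow_zero, pow_zero]
          rfl
        | succ n ih =>
          rw [pow_succ', Equiv.Perm.mul_apply, ih, pow_succ']
          rfl
      intro n m hnm
      simp only [e1] at hnm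
      rw [QuotientGroup.eq] at hnm
      by_contra hne
      rcases lt_or_gt_of_ne hne with h | h
      · obtain ⟨d, rfl⟩ := Nat.exists_eq_add_of_lt h
        apply hgn (2 * (d + 1)) (by omega)
        have : ((g * g) ^ n)⁻¹ * (g * g) ^ (n + d + 1) = g ^ (2 * (d + 1)) := by
          rw [← pow_two, ← pow_mul, ← pow_mul, inv_mul_eq_iff_eq_mul, ← pow_add]
          congr 1
          ring
        rw [← this]
        exact hnm
      · obtain ⟨d, rfl⟩ := Nat.exists_eq_add_of_lt h
        apply hgn (2 * (d + 1)) (by omega)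
        have h2 := L.inv_mem hnm
        have : (((g * g) ^ (m + d + 1))⁻¹ * (g * g) ^ m)⁻¹ = g ^ (2 * (d + 1)) := by
          rw [mul_inv_rev, inv_inv, ← pow_two, ← pow_mul, ← pow_mul, inv_mul_eq_iff_eq_mul,
            ← pow_add]
          congr 1
          ring
        rw [← this]
        exact h2
    · rw [ho, hKmk]
      simpa using hgpos
    · have e1 : (MulAction.toPerm (g * g) : Equiv.Perm (H ⧸ L)) o = QuotientGroup.mk (g * g) := by
        show (QuotientGroup.mk (g * g * 1) : H ⧸ L) = _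
        rw [mul_one]
      rw [e1, hKmk]
      simpa using hgpos
  obtain ⟨f, hf⟩ := cc_opT hK hτ o
  obtain ⟨m, hm⟩ := exists_small hK hτ h0 f ε hε
  refine ⟨m, fun y => (cc hK o m y : ℂ), ?_, ?_, ?_, ?_⟩
  · refine (cc_fin hK o m).subset fun y hy => ?_
    intro h
    apply hy
    show ((cc hK o m y : ℝ) : ℂ) = 0
    rw [h]
    simp
  · clear hm
    intro y hy
    have hy' : cc hK o m y ≠ 0 := by
      intro h
      apply hy
      show ((cc hK o m y : ℝ) : ℂ) = 0
      rw [h]
      simp
    clear hy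
    induction m generalizing y with
    | zero =>
      refine ⟨[], rfl, by simp, ?_⟩
      by_contra h
      exact hy' (if_neg (by simpa using h))
    | succ m ih =>
      have hy2 : ap hK (cc hK o m) y ≠ 0 := hy'
      obtain ⟨x, _, hx⟩ := Finset.exists_ne_zero_of_sum_ne_zero hy2
      obtain ⟨gs, hg1, hg2, hg3⟩ := ih x (right_ne_zero_of_mul hx)
      have hk : k (x.out⁻¹ * y.out) ≠ 0 := by
        have := left_ne_zero_of_mul hx
        rw [hK.symm] at this
        exact this
      obtain ⟨l, hl⟩ := QuotientGroup.mk_out_eq_mul L gs.prod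
      rw [← hg3] at hl
      refine ⟨gs ++ [(l : H) * (x.out⁻¹ * y.out)], by simp [hg1], ?_, ?_⟩
      · intro g' hg'
        rcases List.mem_append.mp hg' with h | h
        · exact hg2 g' h
        · rw [List.mem_singleton.mp h, (hinv _ l.2 _).1]
          exact hk
      · rw [List.prod_append, List.prod_singleton, ← mul_assoc, ← hl, mul_inv_cancel_left,
          QuotientGroup.out_eq']
  · have e1 : ∑ᶠ y, ‖((cc hK o m y : ℝ) : ℂ)‖ ^ 2 = ‖((opT hK hτ)^[m]) f‖ ^ 2 := by
      rw [l2_norm_sq]
      have e2 : (fun y => ‖((cc hK o m y : ℝ) : ℂ)‖ ^ 2) = fun y => (((opT hK hτ)^[m]) f) y ^ 2 := by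
        funext y
        rw [hf, Complex.norm_real, Real.norm_eq_abs, sq_abs]
      rw [e2]
      symm
      apply tsum_eq_finsum
      refine (cc_fin hK o m).subset fun y hy => ?_
      intro h
      apply hy
      show (((opT hK hτ)^[m]) f) y ^ 2 = 0
      rw [hf, h]
      simp
    rw [e1]
    exact hm
  · clear hm
    intro F lam hF
    have hF' : ∀ (x : H ⧸ L) (T : Finset (H ⧸ L)), (∀ y, K x y ≠ 0 → y ∈ T) →
        ∑ y ∈ T, (K x y : ℂ) * F y = lam * F x := by
      intro x T hT
      rw [← hF x]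
      symm
      apply finsum_eq_sum_of_support_subset
      intro y hy
      apply hT
      have := left_ne_zero_of_mul hy
      exact_mod_cast this
    induction m with
    | zero =>
      rw [finsum_eq_single _ o]
      · simp [cc]
      · intro y hy
        simp [cc, hy]
    | succ m ih =>
      set S : Finset (H ⧸ L) := (cc_fin hK o m).toFinset with hS
      have hSm : ∀ x, cc hK o m x ≠ 0 → x ∈ S := by
        intro x hx
        rw [hS, Set.Finite.mem_toFinset]; exact hx
      set T : Finset (H ⧸ L) := S.biUnion (fun x => (hK.fin x).toFinset) with hT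
      have h1 : ∑ᶠ y, ((cc hK o m y : ℝ) : ℂ) * F y = ∑ x ∈ S, (cc hK o m x : ℂ) * F x := by
        apply finsum_eq_sum_of_support_subset
        intro x hx
        apply hSm
        have := left_ne_zero_of_mul hx
        exact_mod_cast this
      have hd : ∀ y, cc hK o (m + 1) y = ∑ x ∈ S, K y x * cc hK o m x := by
        intro y
        exact ap_eq hK _ _ S fun x _ hx => hSm x hx
      have h2 : ∑ᶠ y, ((cc hK o (m + 1) y : ℝ) : ℂ) * F y =
          ∑ y ∈ T, (cc hK o (m + 1) y : ℂ) * F y := by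
        apply finsum_eq_sum_of_support_subset
        intro y hy
        have h3 := left_ne_zero_of_mul hy
        have h4 : cc hK o (m + 1) y ≠ 0 := by exact_mod_cast h3
        rw [hd] at h4
        obtain ⟨x, hx, hx'⟩ := Finset.exists_ne_zero_of_sum_ne_zero h4
        rw [Finset.mem_coe, hT, Finset.mem_biUnion]
        refine ⟨x, hx, ?_⟩
        rw [Set.Finite.mem_toFinset]
        show K x y ≠ 0
        rw [hK.symm]
        exact left_ne_zero_of_mul hx'
      rw [h1] at ih
      rw [h2]
      calc ∑ y ∈ T, (cc hK o (m + 1) y : ℂ) * F y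
          = ∑ y ∈ T, ∑ x ∈ S, (cc hK o m x : ℂ) * ((K x y : ℂ) * F y) := by
            refine Finset.sum_congr rfl fun y _ => ?_
            rw [hd]
            push_cast
            rw [Finset.sum_mul]
            refine Finset.sum_congr rfl fun x _ => ?_
            rw [hK.symm y x]
            ring
        _ = ∑ x ∈ S, (cc hK o m x : ℂ) * (lam * F x) := by
            rw [Finset.sum_comm]
            refine Finset.sum_congr rfl fun x hx => ?_
            rw [← hF' x T (fun y hy => by
              rw [hT, Finset.mem_biUnion]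
              exact ⟨x, hx, by rw [Set.Finite.mem_toFinset]; exact hy⟩), Finset.mul_sum]
        _ = lam * ∑ x ∈ S, (cc hK o m x : ℂ) * F x := by
            rw [Finset.mul_sum]
            exact Finset.sum_congr rfl fun y _ => by ring
        _ = lam ^ (m + 1) * F (QuotientGroup.mk 1) := by
            rw [ih]; ring

end Pool.Agent.DEN.H504
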